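import Pool.Agent.Lib.MP_0a5adf_nt.TP.Interfaces

/-!
Project TAO+ : module GPHI.
-/

set_option autoImplicit false

namespace Pool.Agent.Lib.MP_0a5adf_nt.TP.H61

open Finset

lemma Pc_nonneg (k i s : ℕ) (M : ℤ) : 0 ≤ Pc k i s M := by
  unfold Pc
  positivity

lemma f_nonneg (n c : ℕ) (X : ZMod (3 ^ n)) : 0 ≤ f n c X := by
  unfold f
  positivity

/-- tail of the law of the `m`-th element -/
lemma tail (hmass : MassStatement) (m i : ℕ) :
    ∑ c ∈ Ico (4 * m + 1) (i + 1), ((Fam m c).card : ℝ) / 2 ^ c ≤ (3 / 5 : ℝ) ^ m := by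
  have h1 := hmass.2.2 (3 / 4) m (i + 1) (by norm_num) (by norm_num)
  have h2 : ((3 / 4 : ℝ) / (1 - 3 / 4)) ^ m = 3 ^ m := by norm_num
  rw [h2] at h1
  calc ∑ c ∈ Ico (4 * m + 1) (i + 1), ((Fam m c).card : ℝ) / 2 ^ c
      ≤ ∑ c ∈ Ico (4 * m + 1) (i + 1), ((Fam m c).card : ℝ) * (3 / 4) ^ c * (2 / 3) ^ (4 * m) := by
        refine sum_le_sum fun c hc => ?_
        rw [mem_Ico] at hc
        have h3 : (1 : ℝ) / 2 ^ c = (3 / 4) ^ c * (2 / 3) ^ c := by
          rw [← mul_pow, one_div, ← inv_pow]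
          norm_num
        have h4 : (2 / 3 : ℝ) ^ c ≤ (2 / 3) ^ (4 * m) :=
          pow_le_pow_of_le_one (by norm_num) (by norm_num) (by omega)
        calc ((Fam m c).card : ℝ) / 2 ^ c = ((Fam m c).card : ℝ) * (1 / 2 ^ c) := by ring
          _ = ((Fam m c).card : ℝ) * (3 / 4) ^ c * (2 / 3) ^ c := by rw [h3]; ring
          _ ≤ ((Fam m c).card : ℝ) * (3 / 4) ^ c * (2 / 3) ^ (4 * m) :=
            mul_le_mul_of_nonneg_left h4 (by positivity)
    _ = (∑ c ∈ Ico (4 * m + 1) (i + 1), ((Fam m c).card : ℝ) * (3 / 4) ^ c) * (2 / 3) ^ (4 * m) := by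
        rw [sum_mul]
    _ ≤ (∑ c ∈ range (i + 1), ((Fam m c).card : ℝ) * (3 / 4) ^ c) * (2 / 3) ^ (4 * m) := by
        refine mul_le_mul_of_nonneg_right ?_ (by positivity)
        refine sum_le_sum_of_subset_of_nonneg ?_ fun c _ _ => by positivity
        intro c hc
        rw [mem_Ico] at hc
        rw [mem_range]
        exact hc.2
    _ ≤ 3 ^ m * (2 / 3) ^ (4 * m) := mul_le_mul_of_nonneg_right h1 (by positivity)
    _ = (16 / 27 : ℝ) ^ m := by
        rw [pow_mul, ← mul_pow]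
        norm_num
    _ ≤ (3 / 5 : ℝ) ^ m := pow_le_pow_left₀ (by norm_num) (by norm_num) m

theorem gphi (hmix : MixStatement) (hphi : PhiStatement) (hhoeff : HoeffStatement)
    (hmass : MassStatement) : GphiStatement := by
  intro d i D m k l hmi htyp hmk
  classical
  obtain ⟨hp1, hp2, hp3, -, -⟩ := hphi
  have hsub : typ i D ⊆ Icc m i := by
    intro s hs
    have h1 := (htyp s hs).1
    rw [typ, mem_filter, mem_range] at hs
    rw [mem_Icc]
    omega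
  -- pointwise estimate
  have hpt : ∀ M : ℕ, |G i D (sg d * M) - Phi m (sg d * M)| ≤
      ∑ s ∈ typ i D, |3 ^ s * Pc s i s (sg d * M) - 3 ^ m * Pc m i s (sg d * M)| +
      ∑ s ∈ Icc m i \ typ i D, 3 ^ m * Pc m i s (sg d * M) +
      ∑ c ∈ Ico (4 * m + 1) (i + 1), 3 ^ m * f m c ((sg d * M : ℤ) : ZMod (3 ^ m)) := by
    intro M
    set x : ℤ := sg d * M with hx
    have h1 : ∑ s ∈ Icc m i \ typ i D, Pc m i s x + ∑ s ∈ typ i D, Pc m i s x =
        ∑ c ∈ range (i + 1), f m c (x : ZMod (3 ^ m)) := by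
      rw [sum_sdiff hsub, hp1]
    have h2 : ∑ c ∈ range (4 * m + 1), f m c (x : ZMod (3 ^ m)) +
        ∑ c ∈ Ico (4 * m + 1) (i + 1), f m c (x : ZMod (3 ^ m)) =
        ∑ c ∈ range (i + 1), f m c (x : ZMod (3 ^ m)) := by
      rw [sum_range_add_sum_Ico _ (by omega)]
    have h3 : G i D x - Phi m x =
        ∑ s ∈ typ i D, (3 ^ s * Pc s i s x - 3 ^ m * Pc m i s x) -
        ∑ s ∈ Icc m i \ typ i D, 3 ^ m * Pc m i s x +
        ∑ c ∈ Ico (4 * m + 1) (i + 1), 3 ^ m * f m c (x : ZMod (3 ^ m)) := by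
      rw [G, Phi, sum_sub_distrib, ← mul_sum, ← mul_sum, ← mul_sum]
      have h4 : ∑ c ∈ range (4 * m + 1), f m c (x : ZMod (3 ^ m)) =
          ∑ s ∈ Icc m i \ typ i D, Pc m i s x + ∑ s ∈ typ i D, Pc m i s x -
          ∑ c ∈ Ico (4 * m + 1) (i + 1), f m c (x : ZMod (3 ^ m)) := by linarith
      rw [h4]
      ring
    have hn1 : 0 ≤ ∑ s ∈ Icc m i \ typ i D, 3 ^ m * Pc m i s x :=
      sum_nonneg fun s _ => mul_nonneg (by positivity) (Pc_nonneg _ _ _ _)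
    have hn2 : 0 ≤ ∑ c ∈ Ico (4 * m + 1) (i + 1), 3 ^ m * f m c (x : ZMod (3 ^ m)) :=
      sum_nonneg fun c _ => mul_nonneg (by positivity) (f_nonneg _ _ _)
    have h5 := abs_sum_le_sum_abs (fun s => 3 ^ s * Pc s i s x - 3 ^ m * Pc m i s x) (typ i D)
    rw [h3]
    rw [abs_le] at h5 ⊢
    constructor
    · linarith [h5.1]
    · linarith [h5.2]
  -- the three sums
  have hA : ∑ M ∈ blk k l, 1 / (M : ℝ) *
      ∑ s ∈ typ i D, |3 ^ s * Pc s i s (sg d * M) - 3 ^ m * Pc m i s (sg d * M)| ≤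
      ((l : ℝ) + 1) * ∑ s ∈ typ i D, ∑ n ∈ Ioc m s, Josc n (i + 1) := by
    simp only [mul_sum]
    rw [sum_comm]
    refine sum_le_sum fun s hs => ?_
    have h1 := hmix d m i s k l (htyp s hs).1 (htyp s hs).2
    rw [mul_sum] at h1
    exact h1
  have hB : ∑ M ∈ blk k l, 1 / (M : ℝ) * ∑ s ∈ Icc m i \ typ i D, 3 ^ m * Pc m i s (sg d * M) ≤
      ((l : ℝ) + 1) * (2 * Real.exp (-((D : ℝ) ^ 2 / (2 * i)))) := by
    have h1 : ∑ M ∈ blk k l, 1 / (M : ℝ) * ∑ s ∈ Icc m i \ typ i D, 3 ^ m * Pc m i s (sg d * M) ≤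
        ∑ s ∈ Icc m i \ typ i D, ((l : ℝ) + 1) * ((i.choose s : ℝ) / 2 ^ i) := by
      simp only [mul_sum]
      rw [sum_comm]
      exact sum_le_sum fun s _ => hp3 d m i s k l hmk
    refine h1.trans ?_
    rw [← mul_sum]
    refine mul_le_mul_of_nonneg_left ?_ (by positivity)
    have h2 := hhoeff i ((D : ℝ) / 2) (by positivity)
    have h3 : ∑ s ∈ Icc m i \ typ i D, (i.choose s : ℝ) / 2 ^ i ≤
        (∑ s ∈ (range (i + 1)).filter (fun s : ℕ => (D : ℝ) / 2 ≤ |(s : ℝ) - i / 2|),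
          (i.choose s : ℝ)) / 2 ^ i := by
      rw [sum_div]
      refine sum_le_sum_of_subset_of_nonneg ?_ fun s _ _ => by positivity
      intro s hs
      rw [mem_sdiff, mem_Icc] at hs
      rw [mem_filter, mem_range]
      refine ⟨by omega, ?_⟩
      have h4 : ¬ |2 * (s : ℝ) - i| ≤ D := by
        intro h5
        apply hs.2
        rw [typ, mem_filter, mem_range]
        exact ⟨by omega, h5⟩
      have h6 : |2 * (s : ℝ) - i| = 2 * |(s : ℝ) - i / 2| := by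
        rw [← abs_two (α := ℝ), ← abs_mul, abs_two]
        congr 1
        ring
      rw [h6] at h4
      linarith
    refine h3.trans ?_
    rw [div_le_iff₀ (by positivity)]
    refine h2.trans (le_of_eq ?_)
    have h7 : 2 * ((D : ℝ) / 2) ^ 2 / i = (D : ℝ) ^ 2 / (2 * i) := by
      rw [← div_div]
      congr 1
      ring
    rw [h7]
    ring
  have hC : ∑ M ∈ blk k l, 1 / (M : ℝ) *
      ∑ c ∈ Ico (4 * m + 1) (i + 1), 3 ^ m * f m c ((sg d * M : ℤ) : ZMod (3 ^ m)) ≤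
      ((l : ℝ) + 1) * (3 / 5 : ℝ) ^ m := by
    have h1 : ∑ M ∈ blk k l, 1 / (M : ℝ) *
        ∑ c ∈ Ico (4 * m + 1) (i + 1), 3 ^ m * f m c ((sg d * M : ℤ) : ZMod (3 ^ m)) ≤
        ∑ c ∈ Ico (4 * m + 1) (i + 1), ((l : ℝ) + 1) * (((Fam m c).card : ℝ) / 2 ^ c) := by
      simp only [mul_sum]
      rw [sum_comm]
      exact sum_le_sum fun c _ => hp2 d m c k l hmk
    refine h1.trans ?_
    rw [← mul_sum]
    exact mul_le_mul_of_nonneg_left (tail hmass m i) (by positivity)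
  calc ∑ M ∈ blk k l, 1 / (M : ℝ) * |G i D (sg d * M) - Phi m (sg d * M)|
      ≤ ∑ M ∈ blk k l, (1 / (M : ℝ) *
          (∑ s ∈ typ i D, |3 ^ s * Pc s i s (sg d * M) - 3 ^ m * Pc m i s (sg d * M)|) +
          1 / (M : ℝ) * (∑ s ∈ Icc m i \ typ i D, 3 ^ m * Pc m i s (sg d * M)) +
          1 / (M : ℝ) * (∑ c ∈ Ico (4 * m + 1) (i + 1),
            3 ^ m * f m c ((sg d * M : ℤ) : ZMod (3 ^ m)))) := by
        refine sum_le_sum fun M _ => ?_
        rw [← mul_add, ← mul_add]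
        exact mul_le_mul_of_nonneg_left (hpt M) (by positivity)
    _ ≤ ((l : ℝ) + 1) * (∑ s ∈ typ i D, ∑ n ∈ Ioc m s, Josc n (i + 1)) +
        ((l : ℝ) + 1) * (2 * Real.exp (-((D : ℝ) ^ 2 / (2 * i)))) +
        ((l : ℝ) + 1) * (3 / 5 : ℝ) ^ m := by
        rw [sum_add_distrib, sum_add_distrib]
        exact add_le_add (add_le_add hA hB) hC
    _ = _ := by ring

end Pool.Agent.Lib.MP_0a5adf_nt.TP.H61
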